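import Pool.Agent.H500.ME.Stm

set_option autoImplicit false

/-!
# Tensor representations in matrices (helper118)
-/

open Finset

namespace Pool.Agent.H118.ME.TEN

open Pool.Agent.H500.ME (tens)

/-- sums over functions -/
theorem sum_fun {n a : ℕ} {C : Type} [Field C] (f : Fin a → Fin n → C) :
    ∑ z : Fin a → Fin n, ∏ k, f k (z k) = ∏ k, ∑ j, f k j := by
  rw [Finset.prod_univ_sum, Fintype.piFinset_univ]

theorem prod_one {n a : ℕ} {C : Type} [Field C] (x y : Fin a → Fin n) :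
    ∏ k, (1 : Matrix (Fin n) (Fin n) C) (x k) (y k) = if x = y then 1 else 0 := by
  by_cases h : x = y
  · rw [if_pos h, h]
    exact Finset.prod_eq_one fun k _ => Matrix.one_apply_eq _
  · rw [if_neg h]
    obtain ⟨k, hk⟩ := Function.ne_iff.1 h
    exact Finset.prod_eq_zero (Finset.mem_univ k) (Matrix.one_apply_ne hk)

variable {G : Type} [Group G] {n : ℕ} {C : Type} [Field C]

theorem tens_one (a b : ℕ) (ρ : G →* GL (Fin n) C) : tens a b ρ 1 = 1 := by
  ext x y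
  unfold tens
  rw [inv_one, map_one, Units.val_one, prod_one, prod_one, Matrix.one_apply]
  by_cases h : x = y
  · rw [if_pos h, h, if_pos rfl, if_pos rfl, one_mul]
  · rw [if_neg h]
    by_cases h1 : x.1 = y.1
    · have h2 : y.2 ≠ x.2 := fun h2 => h (Prod.ext h1 h2.symm)
      rw [if_neg h2, mul_zero]
    · rw [if_neg h1, zero_mul]

theorem tens_mul (a b : ℕ) (ρ : G →* GL (Fin n) C) (g h : G) :
    tens a b ρ (g * h) = tens a b ρ g * tens a b ρ h := by
  ext x y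
  rw [Matrix.mul_apply, Fintype.sum_prod_type]
  unfold tens
  have h1 : ∀ i j, (ρ (g * h) : Matrix (Fin n) (Fin n) C) i j =
      ∑ z, (ρ g : Matrix (Fin n) (Fin n) C) i z * (ρ h : Matrix (Fin n) (Fin n) C) z j := by
    intro i j
    rw [map_mul, Units.val_mul, Matrix.mul_apply]
  have h2 : ∀ i j, (ρ (g * h)⁻¹ : Matrix (Fin n) (Fin n) C) i j =
      ∑ z, (ρ h⁻¹ : Matrix (Fin n) (Fin n) C) i z * (ρ g⁻¹ : Matrix (Fin n) (Fin n) C) z j := by
    intro i j
    rw [mul_inv_rev, map_mul, Units.val_mul, Matrix.mul_apply]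
  simp only [h1, h2]
  rw [← sum_fun, ← sum_fun, Finset.sum_mul]
  refine Finset.sum_congr rfl fun z _ => ?_
  rw [Finset.mul_sum]
  refine Finset.sum_congr rfl fun w _ => ?_
  rw [Finset.prod_mul_distrib, Finset.prod_mul_distrib]
  ring

theorem tens_trace (a b : ℕ) (ρ : G →* GL (Fin n) C) (g : G) :
    (tens a b ρ g).trace = (ρ g : Matrix (Fin n) (Fin n) C).trace ^ a *
      (ρ g⁻¹ : Matrix (Fin n) (Fin n) C).trace ^ b := by
  have h1 : ∀ (c : ℕ) (M : Matrix (Fin n) (Fin n) C),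
      ∑ z : Fin c → Fin n, ∏ k, M (z k) (z k) = M.trace ^ c := by
    intro c M
    rw [sum_fun (fun _ j => M j j), Finset.prod_const, Finset.card_univ, Fintype.card_fin]
    rfl
  rw [← h1, ← h1, Matrix.trace, Fintype.sum_prod_type, Finset.sum_mul]
  refine Finset.sum_congr rfl fun z _ => ?_
  rw [Finset.mul_sum]
  exact Finset.sum_congr rfl fun w _ => rfl

theorem inv_diag (ρ : G →* GL (Fin n) C) {g : G}
    (hg : (ρ g : Matrix (Fin n) (Fin n) C).IsDiag) :
    (∀ i j, i ≠ j → (ρ g⁻¹ : Matrix (Fin n) (Fin n) C) i j = 0) ∧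
    ∀ i, (ρ g⁻¹ : Matrix (Fin n) (Fin n) C) i i = ((ρ g : Matrix (Fin n) (Fin n) C) i i)⁻¹ := by
  have h1 : (ρ g : Matrix (Fin n) (Fin n) C) * (ρ g⁻¹ : Matrix (Fin n) (Fin n) C) = 1 := by
    rw [← Units.val_mul, ← map_mul, mul_inv_cancel, map_one, Units.val_one]
  have h2 : ∀ i j, (ρ g : Matrix (Fin n) (Fin n) C) i i *
      (ρ g⁻¹ : Matrix (Fin n) (Fin n) C) i j = (1 : Matrix (Fin n) (Fin n) C) i j := by
    intro i j
    rw [← h1, Matrix.mul_apply, Finset.sum_eq_single i]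
    · intro k _ hk
      rw [hg hk.symm, zero_mul]
    · intro h3
      exact absurd (Finset.mem_univ _) h3
  have h3 : ∀ i, (ρ g : Matrix (Fin n) (Fin n) C) i i ≠ 0 := by
    intro i h4
    have h5 := h2 i i
    rw [h4, zero_mul, Matrix.one_apply_eq] at h5
    exact zero_ne_one h5
  constructor
  · intro i j hij
    have h4 := h2 i j
    rw [Matrix.one_apply_ne hij] at h4
    exact (mul_eq_zero.1 h4).resolve_left (h3 i)
  · intro i
    have h4 := h2 i i
    rw [Matrix.one_apply_eq] at h4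
    exact eq_inv_of_mul_eq_one_right h4

theorem tens_diag (a b : ℕ) (ρ : G →* GL (Fin n) C) {g : G}
    (hg : (ρ g : Matrix (Fin n) (Fin n) C).IsDiag) : (tens a b ρ g).IsDiag ∧
    ∀ x, tens a b ρ g x x = (∏ k, (ρ g : Matrix (Fin n) (Fin n) C) (x.1 k) (x.1 k)) *
      ∏ k, ((ρ g : Matrix (Fin n) (Fin n) C) (x.2 k) (x.2 k))⁻¹ := by
  obtain ⟨h1, h2⟩ := inv_diag ρ hg
  constructor
  · intro x y hxy
    show (∏ k, (ρ g : Matrix (Fin n) (Fin n) C) (x.1 k) (y.1 k)) *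
      ∏ k, (ρ g⁻¹ : Matrix (Fin n) (Fin n) C) (y.2 k) (x.2 k) = 0
    by_cases h3 : x.1 = y.1
    · have h4 : y.2 ≠ x.2 := fun h4 => hxy (Prod.ext h3 h4.symm)
      obtain ⟨k, hk⟩ := Function.ne_iff.1 h4
      rw [Finset.prod_eq_zero (Finset.mem_univ k) (h1 _ _ hk), mul_zero]
    · obtain ⟨k, hk⟩ := Function.ne_iff.1 h3
      rw [Finset.prod_eq_zero (Finset.mem_univ k) (hg hk), zero_mul]
  · intro x
    show (∏ k, (ρ g : Matrix (Fin n) (Fin n) C) (x.1 k) (x.1 k)) *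
      ∏ k, (ρ g⁻¹ : Matrix (Fin n) (Fin n) C) (x.2 k) (x.2 k) = _
    simp only [h2]

theorem main : Pool.Agent.H500.ME.S_TEN := by
  intro G _ n a b C _ ρ
  exact ⟨tens_one a b ρ, tens_mul a b ρ, tens_trace a b ρ, fun g hg => tens_diag a b ρ hg⟩

end Pool.Agent.H118.ME.TEN
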